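import Mathlib

/-!
# Polynomial maps with nonzero constant Jacobian determinant and maps all of whose Jacobian
matrices are unipotent

Let `F = ∑ Φ_j` be a map of `ℝⁿ` with homogeneous parts `Φ_j` and nonzero constant Jacobian
determinant.  We construct a map `G` of a bigger space with weights such that all Jacobian
matrices of `G` have characteristic polynomial `(X - 1) ^ N`; it is not injective if `F` is not.
-/

set_option autoImplicit false

open Polynomial

namespace Pool.Agent.H70J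

theorem det_one_add_comp {A B : Type} [AddCommGroup A] [Module ℝ A] [FiniteDimensional ℝ A]
    [AddCommGroup B] [Module ℝ B] [FiniteDimensional ℝ B] (f : A →ₗ[ℝ] B) (g : B →ₗ[ℝ] A) :
    LinearMap.det (1 + f ∘ₗ g : B →ₗ[ℝ] B) = LinearMap.det (1 + g ∘ₗ f : A →ₗ[ℝ] A) := by
  classical
  let a := Module.finBasis ℝ A
  let b := Module.finBasis ℝ B
  rw [← LinearMap.det_toMatrix b, ← LinearMap.det_toMatrix a, map_add, map_add,
    LinearMap.toMatrix_one, LinearMap.toMatrix_one, LinearMap.toMatrix_comp b a b,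
    LinearMap.toMatrix_comp a b a]
  exact Matrix.det_one_add_mul_comm _ _

section charpoly

variable {V : Type} [NormedAddCommGroup V] [NormedSpace ℝ V] [FiniteDimensional ℝ V]

/-- A map `1 + H` with Jacobian determinant one, where `H` is homogeneous of degree one with
respect to a one-parameter group, has unipotent Jacobian matrices. -/
theorem charpoly_of_scaling (H : V → V) (hH : Differentiable ℝ H)
    (lam : ℝ → V →L[ℝ] V) (hlam : ∀ s : ℝ, s ≠ 0 → ∃ e : V ≃ₗ[ℝ] V, ∀ v, e v = lam s v)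
    (hsc : ∀ (s : ℝ) (Z : V), H (lam s Z) = s • lam s (H Z))
    (hdet : ∀ Z, LinearMap.det (1 + (fderiv ℝ H Z : V →ₗ[ℝ] V)) = 1) (Z : V) :
    LinearMap.charpoly (1 + (fderiv ℝ H Z : V →ₗ[ℝ] V)) = (X - 1) ^ Module.finrank ℝ V := by
  set D : V →ₗ[ℝ] V := (fderiv ℝ H Z : V →ₗ[ℝ] V) with hD
  have key : ∀ s : ℝ, s ≠ 0 → LinearMap.det (1 + s • D) = 1 := by
    intro s hs
    obtain ⟨e, he⟩ := hlam s hs
    have h1 : (fderiv ℝ H (lam s Z)).comp (lam s) = s • (lam s).comp (fderiv ℝ H Z) := by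
      have e1 : HasFDerivAt (fun W => H (lam s W)) ((fderiv ℝ H (lam s Z)).comp (lam s)) Z :=
        (hH (lam s Z)).hasFDerivAt.comp Z (lam s).hasFDerivAt
      have e2 : HasFDerivAt (fun W => s • lam s (H W)) (s • (lam s).comp (fderiv ℝ H Z)) Z :=
        ((lam s).hasFDerivAt.comp Z (hH Z).hasFDerivAt).const_smul s
      have e3 : (fun W => H (lam s W)) = fun W => s • lam s (H W) := funext (hsc s)
      rw [e3] at e1
      exact e1.unique e2
    have h2 : (1 + (fderiv ℝ H (lam s Z) : V →ₗ[ℝ] V)) =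
        (e : V →ₗ[ℝ] V) ∘ₗ (1 + s • D) ∘ₗ (e.symm : V →ₗ[ℝ] V) := by
      apply LinearMap.ext
      intro v
      obtain ⟨u, rfl⟩ := e.surjective v
      have h3 := congrArg (fun T : V →L[ℝ] V => T u) h1
      simp only [ContinuousLinearMap.comp_apply, _root_.smul_apply] at h3
      simp only [LinearMap.add_apply, Module.End.one_apply, LinearMap.comp_apply,
        LinearEquiv.coe_coe, LinearEquiv.symm_apply_apply, LinearMap.smul_apply, map_add,
        map_smul, ContinuousLinearMap.coe_coe, hD]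
      rw [he u, he, h3]
    have h4 := hdet (lam s Z)
    rw [h2] at h4
    rw [← h4]
    exact (LinearMap.det_conj (1 + s • D) e).symm
  refine Polynomial.eq_of_infinite_eval_eq _ _ ((Set.finite_singleton (1 : ℝ)).infinite_compl.mono
    fun x hx => ?_)
  have hx1 : x - 1 ≠ 0 := sub_ne_zero.2 hx
  change eval x _ = eval x _
  rw [LinearMap.eval_charpoly, eval_pow, eval_sub, eval_X, eval_one]
  have h5 : (algebraMap ℝ (Module.End ℝ V) x) - (1 + D) =
      (x - 1) • (1 + (-(x - 1)⁻¹) • D) := by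
    rw [Algebra.algebraMap_eq_smul_one, smul_add, smul_smul]
    have : (x - 1) * -(x - 1)⁻¹ = -1 := by field_simp
    rw [this, sub_smul, one_smul, neg_one_smul]
    abel
  rw [h5, LinearMap.det_smul, key _ (neg_ne_zero.2 (inv_ne_zero hx1)), mul_one]

end charpoly

/-! ## The weighted chain -/

section chain

variable {m n : ℕ}

/-- The shift. -/
def shift (m n : ℕ) : (Fin (m + 1) → Fin n → ℝ) →ₗ[ℝ] (Fin (m + 1) → Fin n → ℝ) where
  toFun Z i := if h : i.1 + 1 < m + 1 then Z ⟨i.1 + 1, h⟩ else 0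
  map_add' Z W := by
    funext i
    rw [Pi.add_apply]
    by_cases h : i.1 + 1 < m + 1
    · rw [dif_pos h, dif_pos h, dif_pos h]
      rfl
    · rw [dif_neg h, dif_neg h, dif_neg h, add_zero]
  map_smul' c Z := by
    funext i
    rw [Pi.smul_apply]
    by_cases h : i.1 + 1 < m + 1
    · rw [dif_pos h, dif_pos h]
      rfl
    · rw [dif_neg h, dif_neg h]
      exact (smul_zero _).symm

theorem shift_apply (Z : Fin (m + 1) → Fin n → ℝ) (i : Fin (m + 1)) :
    shift m n Z i = if h : i.1 + 1 < m + 1 then Z ⟨i.1 + 1, h⟩ else 0 := rfl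

theorem shift_pow (k : ℕ) (Z : Fin (m + 1) → Fin n → ℝ) (i : Fin (m + 1)) :
    ((shift m n) ^ k) Z i = if h : i.1 + k < m + 1 then Z ⟨i.1 + k, h⟩ else 0 := by
  induction k generalizing i with
  | zero => rw [dif_pos (show i.1 + 0 < m + 1 from i.2)]; rfl
  | succ k ih =>
    rw [pow_succ', Module.End.mul_apply, shift_apply]
    by_cases h : i.1 + 1 < m + 1
    · rw [dif_pos h, ih]
      by_cases h2 : i.1 + (k + 1) < m + 1
      · have h3 : (⟨i.1 + 1, h⟩ : Fin (m + 1)).1 + k < m + 1 := by simp; omega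
        rw [dif_pos h3, dif_pos h2]
        congr 1
        apply Fin.ext
        simp
        omega
      · have h3 : ¬ (⟨i.1 + 1, h⟩ : Fin (m + 1)).1 + k < m + 1 := by simp; omega
        rw [dif_neg h3, dif_neg h2]
    · rw [dif_neg h, dif_neg (by omega)]

theorem det_one_sub_shift : LinearMap.det (1 - shift m n) = 1 := by
  have hnil : IsNilpotent (shift m n) := by
    refine ⟨m + 1, ?_⟩
    apply LinearMap.ext
    intro Z
    funext i
    rw [shift_pow, dif_neg (by omega)]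
    rfl
  have h1 := LinearMap.eval_charpoly (shift m n) 1
  rw [hnil.charpoly_eq_X_pow_finrank] at h1
  simpa using h1.symm

/-- The dilations `(s Z_0, s² Z_1, ...)`. -/
noncomputable def dil (m n : ℕ) (s : ℝ) :
    (Fin (m + 1) → Fin n → ℝ) →L[ℝ] (Fin (m + 1) → Fin n → ℝ) :=
  ContinuousLinearMap.pi fun i => s ^ (i.1 + 1) • ContinuousLinearMap.proj i

theorem dil_apply (s : ℝ) (Z : Fin (m + 1) → Fin n → ℝ) (i : Fin (m + 1)) :
    dil m n s Z i = s ^ (i.1 + 1) • Z i := rfl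

theorem dil_equiv (s : ℝ) (hs : s ≠ 0) :
    ∃ e : (Fin (m + 1) → Fin n → ℝ) ≃ₗ[ℝ] (Fin (m + 1) → Fin n → ℝ),
      ∀ v, e v = dil m n s v := by
  refine ⟨LinearEquiv.ofLinearMap (dil m n s : _ →ₗ[ℝ] _) (dil m n s⁻¹ : _ →ₗ[ℝ] _) ?_ ?_,
    fun v => rfl⟩
  · apply LinearMap.ext
    intro Z
    funext i
    change s ^ (i.1 + 1) • (s⁻¹ ^ (i.1 + 1) • Z i) = Z i
    rw [smul_smul, ← mul_pow, mul_inv_cancel₀ hs, one_pow, one_smul]
  · apply LinearMap.ext
    intro Z
    funext i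
    change s⁻¹ ^ (i.1 + 1) • (s ^ (i.1 + 1) • Z i) = Z i
    rw [smul_smul, ← mul_pow, inv_mul_cancel₀ hs, one_pow, one_smul]

variable (Φ : ℕ → (Fin n → ℝ) → (Fin n → ℝ))

/-- The nonlinear part. -/
def phi (m : ℕ) (x : Fin n → ℝ) : Fin (m + 1) → Fin n → ℝ := fun i => Φ (i.1 + 2) x

/-- The solution of `(1 - shift) ρ = φ`. -/
def rho (m : ℕ) (x : Fin n → ℝ) : Fin (m + 1) → Fin n → ℝ :=
  fun i => ∑ l ∈ Finset.Icc i.1 m, Φ (l + 2) x

/-- `H Z = - shift Z + φ (Z 0)`. -/
def HH (m : ℕ) (Z : Fin (m + 1) → Fin n → ℝ) : Fin (m + 1) → Fin n → ℝ :=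
  phi Φ m (Z 0) - shift m n Z

theorem rho_eq (x : Fin n → ℝ) : rho Φ m x - shift m n (rho Φ m x) = phi Φ m x := by
  funext i
  rw [Pi.sub_apply, shift_apply]
  have hi : i.1 ≤ m := by have := i.2; omega
  by_cases h : i.1 + 1 < m + 1
  · rw [dif_pos h]
    change ∑ l ∈ Finset.Icc i.1 m, Φ (l + 2) x - ∑ l ∈ Finset.Icc (i.1 + 1) m, Φ (l + 2) x =
      Φ (i.1 + 2) x
    rw [← Finset.insert_Icc_add_one_left_eq_Icc hi, Finset.sum_insert (by simp)]
    abel
  · rw [dif_neg h]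
    have h2 : i.1 = m := by omega
    change ∑ l ∈ Finset.Icc i.1 m, Φ (l + 2) x - 0 = Φ (i.1 + 2) x
    rw [h2]
    simp

theorem HH_eq (Z : Fin (m + 1) → Fin n → ℝ) :
    Z + HH Φ m Z = (1 - shift m n) (Z + rho Φ m (Z 0)) := by
  unfold HH
  rw [← rho_eq Φ (m := m) (Z 0)]
  simp only [LinearMap.sub_apply, Module.End.one_apply, map_add]
  abel

theorem HH_dil (hhom : ∀ (j : ℕ) (t : ℝ) (x : Fin n → ℝ), Φ j (t • x) = t ^ j • Φ j x)
    (s : ℝ) (Z : Fin (m + 1) → Fin n → ℝ) :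
    HH Φ m (dil m n s Z) = s • dil m n s (HH Φ m Z) := by
  funext i
  rw [Pi.smul_apply, dil_apply]
  unfold HH
  rw [Pi.sub_apply, Pi.sub_apply, shift_apply, shift_apply]
  have e0 : dil m n s Z 0 = s • Z 0 := by rw [dil_apply]; simp
  have e1 : phi Φ m (dil m n s Z 0) i = s • s ^ (i.1 + 1) • phi Φ m (Z 0) i := by
    rw [e0]
    change Φ (i.1 + 2) (s • Z 0) = s • s ^ (i.1 + 1) • Φ (i.1 + 2) (Z 0)
    rw [hhom, smul_smul]
    congr 1
    ring
  rw [e1]
  by_cases h : i.1 + 1 < m + 1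
  · rw [dif_pos h, dif_pos h, dil_apply, smul_sub, smul_sub, smul_smul s (s ^ (i.1 + 1)) (Z _)]
    congr 2
    ring
  · rw [dif_neg h, dif_neg h, sub_zero, sub_zero]

end chain

end Pool.Agent.H70J
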