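import Pool.Agent.H70J.Steps

/-!
# An explicit polynomial map of affine 4-space with Jacobian determinant 64 which is not injective:
the determinant
-/

set_option autoImplicit false

open Function Topology

namespace Pool.Agent.H70J

theorem val5 (X y p g : ℝ) (hX : X ≠ 0) :
    ((2 * X * g + AA (X * y) / X ^ 3) - 6 * (mm (X * y) / X ^ 2) * (bb X y p g / X) +
      4 * (bb X y p g / X) ^ 3) / (X ^ 4)⁻¹ = fc X y p g := by
  have e : fc X y p g = X * cf X y p g := rfl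
  rw [e, cf_eq]
  field_simp
  ring

theorem val6 (X y p g : ℝ) (hX : X ≠ 0) :
    bb X y p g / X - mm (X * y) / X ^ 2 * fc X y p g = ft X y p g := by
  have e : fc X y p g = X * cf X y p g := rfl
  have h := X_ft X y p g
  rw [e]
  field_simp
  linear_combination -h

theorem val7 (X y p g : ℝ) (hX : X ≠ 0) :
    (X ^ 4)⁻¹ + 3 * (mm (X * y) / X ^ 2) ^ 2 - 12 * (mm (X * y) / X ^ 2) * ft X y p g ^ 2 -
      12 * (mm (X * y) / X ^ 2) ^ 2 * fc X y p g * ft X y p g -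
      4 * (mm (X * y) / X ^ 2) ^ 3 * fc X y p g ^ 2 = fta X y p g := by
  have e : fc X y p g = X * cf X y p g := rfl
  have h := X_ft X y p g
  have h2 : ft X y p g = (bb X y p g - mm (X * y) * cf X y p g) / X := by
    rw [← h]
    field_simp
  have h3 := X_fta X y p g
  rw [e, h2]
  field_simp
  linear_combination -h3

theorem val8 (X y p g : ℝ) (hX : X ≠ 0) :
    (mm (X * y) / X ^ 2) * fta X y p g - (mm (X * y) / X ^ 2) ^ 3 +
      6 * (mm (X * y) / X ^ 2) ^ 2 * ft X y p g ^ 2 +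
      4 * (mm (X * y) / X ^ 2) ^ 3 * fc X y p g * ft X y p g +
      (mm (X * y) / X ^ 2) ^ 4 * fc X y p g ^ 2 = fa X y p g := by
  have e : fc X y p g = X * cf X y p g := rfl
  have h := X_ft X y p g
  have h2 : ft X y p g = (bb X y p g - mm (X * y) * cf X y p g) / X := by
    rw [← h]
    field_simp
  have h3 := X_fta X y p g
  have h4 := X_fa X y p g
  rw [e, h2]
  field_simp
  linear_combination mm (X * y) * h3 - h4

/-- The steps. -/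
noncomputable def S1 (z : Fin 4 → ℝ) : Fin 4 → ℝ := update z 2 (h1 z)
noncomputable def S2 (z : Fin 4 → ℝ) : Fin 4 → ℝ := update z 3 (h2 z)
noncomputable def S3 (z : Fin 4 → ℝ) : Fin 4 → ℝ := update z 1 (h3 z)
noncomputable def S4 (z : Fin 4 → ℝ) : Fin 4 → ℝ := update z 0 (h4 z)
noncomputable def S5 (z : Fin 4 → ℝ) : Fin 4 → ℝ := update z 3 (h5 z)
noncomputable def S6 (z : Fin 4 → ℝ) : Fin 4 → ℝ := update z 2 (h6 z)
noncomputable def S7 (z : Fin 4 → ℝ) : Fin 4 → ℝ := update z 0 (h7 z)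
noncomputable def S8 (z : Fin 4 → ℝ) : Fin 4 → ℝ := update z 1 (h8 z)

theorem upd0 (a b c d e : ℝ) : update ![a, b, c, d] 0 e = ![e, b, c, d] := by
  ext i; fin_cases i <;> simp
theorem upd1 (a b c d e : ℝ) : update ![a, b, c, d] 1 e = ![a, e, c, d] := by
  ext i; fin_cases i <;> simp
theorem upd2 (a b c d e : ℝ) : update ![a, b, c, d] 2 e = ![a, b, e, d] := by
  ext i; fin_cases i <;> simp
theorem upd3 (a b c d e : ℝ) : update ![a, b, c, d] 3 e = ![a, b, c, e] := by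
  ext i; fin_cases i <;> simp

theorem s1 (X y p g : ℝ) : S1 ![X, y, p, g] = ![X, y, bb X y p g / X, g] := by
  unfold S1
  rw [upd2]
  rfl
theorem s2 (X y k g : ℝ) : S2 ![X, y, k, g] = ![X, y, k, 2 * X * g + AA (X * y) / X ^ 3] := by
  unfold S2
  rw [upd3]
  rfl
theorem s3 (X y k J : ℝ) : S3 ![X, y, k, J] = ![X, mm (X * y) / X ^ 2, k, J] := by
  unfold S3
  rw [upd1]
  rfl
theorem s4 (X w k J : ℝ) : S4 ![X, w, k, J] = ![(X ^ 4)⁻¹, w, k, J] := by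
  unfold S4
  rw [upd0]
  rfl
theorem s5 (v w k J : ℝ) : S5 ![v, w, k, J] = ![v, w, k, (J - 6 * w * k + 4 * k ^ 3) / v] := by
  unfold S5
  rw [upd3]
  rfl
theorem s6 (v w k c : ℝ) : S6 ![v, w, k, c] = ![v, w, k - w * c, c] := by
  unfold S6
  rw [upd2]
  rfl
theorem s7 (v w t c : ℝ) : S7 ![v, w, t, c] =
    ![v + 3 * w ^ 2 - 12 * w * t ^ 2 - 12 * w ^ 2 * c * t - 4 * w ^ 3 * c ^ 2, w, t, c] := by
  unfold S7
  rw [upd0]
  rfl
theorem s8 (τ w t c : ℝ) : S8 ![τ, w, t, c] =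
    ![τ, w * τ - w ^ 3 + 6 * w ^ 2 * t ^ 2 + 4 * w ^ 3 * c * t + w ^ 4 * c ^ 2, t, c] := by
  unfold S8
  rw [upd1]
  rfl

theorem vec_eq (z : Fin 4 → ℝ) : z = ![z 0, z 1, z 2, z 3] := by
  ext i; fin_cases i <;> rfl

theorem FF_vec (X y p g : ℝ) : FF ![X, y, p, g] =
    ![fta X y p g, fa X y p g, ft X y p g, fc X y p g] := rfl

theorem comp_eq (X y p g : ℝ) (hX : X ≠ 0) :
    S8 (S7 (S6 (S5 (S4 (S3 (S2 (S1 ![X, y, p, g]))))))) = FF ![X, y, p, g] := by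
  rw [s1, s2, s3, s4, s5, val5 X y p g hX, s6, val6 X y p g hX, s7, val7 X y p g hX, s8,
    val8 X y p g hX, FF_vec]

theorem JD8' (v w t c : ℝ) : JD S8
    ![v + 3 * w ^ 2 - 12 * w * t ^ 2 - 12 * w ^ 2 * c * t - 4 * w ^ 3 * c ^ 2, w, t, c] v := by
  have h := JD8 ![v + 3 * w ^ 2 - 12 * w * t ^ 2 - 12 * w ^ 2 * c * t - 4 * w ^ 3 * c ^ 2, w, t, c]
  refine ⟨h.1, h.2.trans ?_⟩
  change (v + 3 * w ^ 2 - 12 * w * t ^ 2 - 12 * w ^ 2 * c * t - 4 * w ^ 3 * c ^ 2) - 3 * w ^ 2 +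
    12 * w * t ^ 2 + 12 * w ^ 2 * c * t + 4 * w ^ 3 * c ^ 2 = v
  ring

/-- The determinant where `X ≠ 0`. -/
theorem JD_FF (x : Fin 4 → ℝ) (hx : x 0 ≠ 0) : JD FF x 64 := by
  obtain ⟨X, y, p, g, rfl⟩ : ∃ X y p g : ℝ, x = ![X, y, p, g] := ⟨_, _, _, _, vec_eq x⟩
  have hX : X ≠ 0 := hx
  have hX4 : (X ^ 4)⁻¹ ≠ 0 := inv_ne_zero (pow_ne_zero 4 hX)
  have j1 : JD S1 ![X, y, p, g] (-2 * X ^ 5) := JD1 _ hX
  have j2 : JD (fun z => S2 (S1 z)) ![X, y, p, g] (2 * X * (-2 * X ^ 5)) := by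
    refine JD.comp ?_ j1
    rw [s1]
    exact JD2 _ hX
  have j3 : JD (fun z => S3 (S2 (S1 z))) ![X, y, p, g] (4 / X * (2 * X * (-2 * X ^ 5))) := by
    refine JD.comp (g := S3) ?_ j2
    rw [s1, s2]
    exact JD3 _ hX
  have j4 : JD (fun z => S4 (S3 (S2 (S1 z)))) ![X, y, p, g]
      (-4 / X ^ 5 * (4 / X * (2 * X * (-2 * X ^ 5)))) := by
    refine JD.comp (g := S4) ?_ j3
    rw [s1, s2, s3]
    exact JD4 _ hX
  have j5 : JD (fun z => S5 (S4 (S3 (S2 (S1 z))))) ![X, y, p, g]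
      (1 / (X ^ 4)⁻¹ * (-4 / X ^ 5 * (4 / X * (2 * X * (-2 * X ^ 5))))) := by
    refine JD.comp (g := S5) ?_ j4
    rw [s1, s2, s3, s4]
    exact JD5 _ hX4
  have j6 : JD (fun z => S6 (S5 (S4 (S3 (S2 (S1 z)))))) ![X, y, p, g]
      (1 * (1 / (X ^ 4)⁻¹ * (-4 / X ^ 5 * (4 / X * (2 * X * (-2 * X ^ 5)))))) := by
    refine JD.comp (g := S6) ?_ j5
    exact JD6 _
  have j7 : JD (fun z => S7 (S6 (S5 (S4 (S3 (S2 (S1 z))))))) ![X, y, p, g]
      (1 * (1 * (1 / (X ^ 4)⁻¹ * (-4 / X ^ 5 * (4 / X * (2 * X * (-2 * X ^ 5))))))) := by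
    refine JD.comp (g := S7) ?_ j6
    exact JD7 _
  have j8 : JD (fun z => S8 (S7 (S6 (S5 (S4 (S3 (S2 (S1 z)))))))) ![X, y, p, g]
      ((X ^ 4)⁻¹ * (1 * (1 * (1 / (X ^ 4)⁻¹ *
        (-4 / X ^ 5 * (4 / X * (2 * X * (-2 * X ^ 5)))))))) := by
    refine JD.comp (g := S8) ?_ j7
    rw [s1, s2, s3, s4, s5, s6, s7]
    exact JD8' _ _ _ _
  have e64 : (X ^ 4)⁻¹ * (1 * (1 * (1 / (X ^ 4)⁻¹ *
        (-4 / X ^ 5 * (4 / X * (2 * X * (-2 * X ^ 5))))))) = 64 := by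
    field_simp
    norm_num
  rw [e64] at j8
  have hev : (fun z => S8 (S7 (S6 (S5 (S4 (S3 (S2 (S1 z)))))))) =ᶠ[𝓝 ![X, y, p, g]] FF := by
    have h0 : ∀ᶠ z : Fin 4 → ℝ in 𝓝 ![X, y, p, g], z 0 ≠ 0 :=
      (continuous_apply (0 : Fin 4)).continuousAt.eventually_ne hX
    filter_upwards [h0] with z hz
    rw [vec_eq z]
    exact comp_eq _ _ _ _ hz
  exact ⟨hev.differentiableAt_iff.1 j8.1, by rw [← hev.fderiv_eq]; exact j8.2⟩

end Pool.Agent.H70J
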