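import Pool.Agent.H70J.Uni

/-!
# Reduction: maps with homogeneous parts and constant Jacobian determinant
-/

set_option autoImplicit false

open Polynomial

namespace Pool.Agent.H70J

variable {n : ℕ}

theorem part_zero (Φ : ℕ → (Fin n → ℝ) → (Fin n → ℝ))
    (hhom : ∀ (j : ℕ) (t : ℝ) (x : Fin n → ℝ), Φ j (t • x) = t ^ j • Φ j x) (x : Fin n → ℝ) :
    Φ 0 x = Φ 0 0 := by
  have := hhom 0 0 x
  rw [zero_smul, pow_zero, one_smul] at this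
  exact this.symm

theorem part_one (Φ : ℕ → (Fin n → ℝ) → (Fin n → ℝ)) (m : ℕ)
    (hhom : ∀ (j : ℕ) (t : ℝ) (x : Fin n → ℝ), Φ j (t • x) = t ^ j • Φ j x)
    (hΦ : ∀ j, ContDiff ℝ 1 (Φ j)) (v : Fin n → ℝ) :
    (fderiv ℝ (fun x => ∑ j ∈ Finset.range (m + 3), Φ j x) 0) v = Φ 1 v := by
  have hne : (1 : WithTop ℕ∞) ≠ 0 := one_ne_zero
  have hFc : ContDiff ℝ 1 (fun x => ∑ j ∈ Finset.range (m + 3), Φ j x) :=
    ContDiff.sum fun j _ => hΦ j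
  have hF : HasFDerivAt (fun x => ∑ j ∈ Finset.range (m + 3), Φ j x)
      (fderiv ℝ (fun x => ∑ j ∈ Finset.range (m + 3), Φ j x) 0) ((0 : ℝ) • v) := by
    rw [zero_smul]
    exact (hFc.differentiable hne 0).hasFDerivAt
  have h1 : HasDerivAt (fun t : ℝ => t • v) v 0 := by
    simpa using (hasDerivAt_id (0 : ℝ)).smul_const v
  have h2 : HasDerivAt (fun t : ℝ => ∑ j ∈ Finset.range (m + 3), Φ j (t • v))
      ((fderiv ℝ (fun x => ∑ j ∈ Finset.range (m + 3), Φ j x) 0) v) 0 :=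
    HasFDerivAt.comp_hasDerivAt (l := fun x => ∑ j ∈ Finset.range (m + 3), Φ j x)
      (f := fun t : ℝ => t • v) (0 : ℝ) hF h1
  have h3 : HasDerivAt (fun t : ℝ => ∑ j ∈ Finset.range (m + 3), t ^ j • Φ j v)
      (∑ j ∈ Finset.range (m + 3), ((j : ℝ) * (0 : ℝ) ^ (j - 1)) • Φ j v) 0 := by
    refine HasDerivAt.fun_sum fun j _ => ?_
    exact (hasDerivAt_pow j (0 : ℝ)).smul_const _
  have h4 : (fun t : ℝ => ∑ j ∈ Finset.range (m + 3), Φ j (t • v)) =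
      fun t : ℝ => ∑ j ∈ Finset.range (m + 3), t ^ j • Φ j v := by
    funext t
    exact Finset.sum_congr rfl fun j _ => hhom j t v
  rw [h4] at h2
  rw [h2.unique h3, Finset.sum_eq_single 1]
  · simp
  · intro j _ hj
    rcases Nat.eq_zero_or_pos j with h0 | h0
    · simp [h0]
    · have : (0 : ℝ) ^ (j - 1) = 0 := zero_pow (by omega)
      simp [this]
  · intro h
    exact absurd (Finset.mem_range.2 (by omega)) h

/-- Reduction to Jacobian determinant one and identical linear part. -/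
theorem exists_unipotent_of_parts (Φ : ℕ → (Fin n → ℝ) → (Fin n → ℝ)) (m : ℕ)
    (hΦ : ∀ j, ContDiff ℝ 1 (Φ j))
    (hhom : ∀ (j : ℕ) (t : ℝ) (x : Fin n → ℝ), Φ j (t • x) = t ^ j • Φ j x)
    (κ : ℝ) (hκ : κ ≠ 0)
    (hdet : ∀ x, LinearMap.det ((fderiv ℝ (fun x => ∑ j ∈ Finset.range (m + 3), Φ j x) x :
      (Fin n → ℝ) →L[ℝ] (Fin n → ℝ)) : (Fin n → ℝ) →ₗ[ℝ] (Fin n → ℝ)) = κ)
    (a b : Fin n → ℝ) (hab : a ≠ b)
    (hF : ∑ j ∈ Finset.range (m + 3), Φ j a = ∑ j ∈ Finset.range (m + 3), Φ j b) :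
    ∃ G : (Fin (m + 1) → Fin n → ℝ) → (Fin (m + 1) → Fin n → ℝ), ContDiff ℝ 1 G ∧
      (∀ Z, LinearMap.charpoly (fderiv ℝ G Z : (Fin (m + 1) → Fin n → ℝ) →ₗ[ℝ]
        (Fin (m + 1) → Fin n → ℝ)) = (X - 1) ^ Module.finrank ℝ (Fin (m + 1) → Fin n → ℝ)) ∧
      ∃ Z Z', Z ≠ Z' ∧ G Z = G Z' := by
  have hne : (1 : WithTop ℕ∞) ≠ 0 := one_ne_zero
  set F : (Fin n → ℝ) → (Fin n → ℝ) := fun x => ∑ j ∈ Finset.range (m + 3), Φ j x with hFdef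
  have hFc : ContDiff ℝ 1 F := ContDiff.sum fun j _ => hΦ j
  set L : (Fin n → ℝ) →ₗ[ℝ] (Fin n → ℝ) := (fderiv ℝ F 0 : (Fin n → ℝ) →ₗ[ℝ] (Fin n → ℝ))
    with hL
  have hLdet : IsUnit (LinearMap.det L) := by
    rw [hL, hdet 0]
    exact isUnit_iff_ne_zero.2 hκ
  let e : (Fin n → ℝ) ≃ₗ[ℝ] (Fin n → ℝ) := LinearEquiv.ofIsUnitDet (f := L)
    (v := Pi.basisFun ℝ (Fin n)) (v' := Pi.basisFun ℝ (Fin n)) (by
      rwa [LinearMap.det_toMatrix])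
  have he : ∀ v, e v = L v := fun v => rfl
  let Li : (Fin n → ℝ) →L[ℝ] (Fin n → ℝ) := LinearMap.toContinuousLinearMap
    (e.symm : (Fin n → ℝ) →ₗ[ℝ] (Fin n → ℝ))
  have hLi : ∀ v, Li v = e.symm v := fun v => rfl
  have h1 : ∀ v, L v = Φ 1 v := fun v => part_one Φ m hhom hΦ v
  have hsplit : ∀ x, F x = Φ 0 0 + L x + ∑ l ∈ Finset.Icc 0 m, Φ (l + 2) x := by
    intro x
    have h2 : F x = ∑ j ∈ Finset.range (m + 3), Φ j x := rfl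
    rw [h2, Finset.sum_range_succ', Finset.sum_range_succ', h1, part_zero Φ hhom x]
    have h3 : ∑ l ∈ Finset.Icc 0 m, Φ (l + 2) x = ∑ k ∈ Finset.range (m + 1), Φ (k + 1 + 1) x := by
      rw [← Nat.range_succ_eq_Icc_zero]
    rw [h3]
    abel
  have hΨ : ∀ x, x + rho (fun j x => Li (Φ j x)) m x 0 = Li (F x - Φ 0 0) := by
    intro x
    have h2 : rho (fun j x => Li (Φ j x)) m x 0 = Li (∑ l ∈ Finset.Icc 0 m, Φ (l + 2) x) := by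
      rw [map_sum]
      rfl
    have h3 : F x - Φ 0 0 = L x + ∑ l ∈ Finset.Icc 0 m, Φ (l + 2) x := by
      rw [hsplit x]
      abel
    rw [h2, h3, map_add, hLi (L x), ← he x, LinearEquiv.symm_apply_apply]
  refine exists_unipotent (fun j x => Li (Φ j x)) m (fun j => Li.contDiff.comp (hΦ j))
    (fun j t x => ?_) (fun x => ?_) a b hab ?_
  · rw [hhom, map_smul]
  · have h4 : (fun x => x + rho (fun j x => Li (Φ j x)) m x 0) = fun x => Li (F x - Φ 0 0) :=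
      funext hΨ
    have h5 : HasFDerivAt (fun x => Li (F x - Φ 0 0)) (Li.comp (fderiv ℝ F x)) x :=
      Li.hasFDerivAt.comp x (((hFc.differentiable hne) x).hasFDerivAt.sub_const (Φ 0 0))
    rw [h4, h5.fderiv]
    have h6 : ((Li.comp (fderiv ℝ F x) : (Fin n → ℝ) →L[ℝ] (Fin n → ℝ)) :
        (Fin n → ℝ) →ₗ[ℝ] (Fin n → ℝ)) =
        (e.symm : (Fin n → ℝ) →ₗ[ℝ] (Fin n → ℝ)) ∘ₗ
          ((fderiv ℝ F x : (Fin n → ℝ) →L[ℝ] (Fin n → ℝ)) : (Fin n → ℝ) →ₗ[ℝ] (Fin n → ℝ)) := rfl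
    rw [h6, LinearMap.det_comp, hdet x, ← hdet 0]
    have h7 : ((fderiv ℝ F 0 : (Fin n → ℝ) →L[ℝ] (Fin n → ℝ)) : (Fin n → ℝ) →ₗ[ℝ] (Fin n → ℝ)) =
        (e : (Fin n → ℝ) →ₗ[ℝ] (Fin n → ℝ)) := rfl
    rw [h7, ← LinearMap.det_comp]
    have h8 : (e.symm : (Fin n → ℝ) →ₗ[ℝ] (Fin n → ℝ)) ∘ₗ
        (e : (Fin n → ℝ) →ₗ[ℝ] (Fin n → ℝ)) = LinearMap.id := by
      apply LinearMap.ext
      intro v
      simp
    rw [h8, LinearMap.det_id]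
  · rw [hΨ, hΨ]
    have h9 : F a = F b := hF
    rw [h9]

/-- Transfer to `ℝ^N`. -/
theorem transfer {m : ℕ} (G : (Fin (m + 1) → Fin n → ℝ) → (Fin (m + 1) → Fin n → ℝ))
    (hG : ContDiff ℝ 1 G)
    (hch : ∀ Z, LinearMap.charpoly (fderiv ℝ G Z : (Fin (m + 1) → Fin n → ℝ) →ₗ[ℝ]
        (Fin (m + 1) → Fin n → ℝ)) = (X - 1) ^ Module.finrank ℝ (Fin (m + 1) → Fin n → ℝ))
    (hni : ∃ Z Z', Z ≠ Z' ∧ G Z = G Z') (N : ℕ) (hN : N = (m + 1) * n) :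
    ∃ f : (Fin N → ℝ) → (Fin N → ℝ), ContDiff ℝ 1 f ∧
      (∀ x : Fin N → ℝ, (LinearMap.toMatrix' ((fderiv ℝ f x : (Fin N → ℝ) →L[ℝ] (Fin N → ℝ)) :
          (Fin N → ℝ) →ₗ[ℝ] (Fin N → ℝ))).charpoly = (X - 1) ^ N) ∧ ¬ Function.Injective f := by
  have hne : (1 : WithTop ℕ∞) ≠ 0 := one_ne_zero
  have hfr : Module.finrank ℝ (Fin N → ℝ) = Module.finrank ℝ (Fin (m + 1) → Fin n → ℝ) := by
    rw [Module.finrank_fin_fun, Module.finrank_pi_fintype]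
    simp [hN]
  let e : (Fin N → ℝ) ≃L[ℝ] (Fin (m + 1) → Fin n → ℝ) := ContinuousLinearEquiv.ofFinrankEq hfr
  refine ⟨fun x => e.symm (G (e x)), ?_, fun x => ?_, fun hinj => ?_⟩
  · exact e.symm.contDiff.comp (hG.comp e.contDiff)
  · have h1 : HasFDerivAt (fun x => e.symm (G (e x)))
        ((e.symm : (Fin (m + 1) → Fin n → ℝ) →L[ℝ] (Fin N → ℝ)).comp
          ((fderiv ℝ G (e x)).comp (e : (Fin N → ℝ) →L[ℝ] (Fin (m + 1) → Fin n → ℝ)))) x :=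
      e.symm.hasFDerivAt.comp x (((hG.differentiable hne) (e x)).hasFDerivAt.comp x e.hasFDerivAt)
    rw [h1.fderiv]
    have h2 : (((e.symm : (Fin (m + 1) → Fin n → ℝ) →L[ℝ] (Fin N → ℝ)).comp
          ((fderiv ℝ G (e x)).comp (e : (Fin N → ℝ) →L[ℝ] (Fin (m + 1) → Fin n → ℝ))) :
          (Fin N → ℝ) →L[ℝ] (Fin N → ℝ)) : (Fin N → ℝ) →ₗ[ℝ] (Fin N → ℝ)) =
        e.symm.toLinearEquiv.conj (fderiv ℝ G (e x) : (Fin (m + 1) → Fin n → ℝ) →ₗ[ℝ]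
          (Fin (m + 1) → Fin n → ℝ)) := rfl
    rw [h2, ← LinearMap.toMatrix_eq_toMatrix', LinearMap.charpoly_toMatrix,
      LinearEquiv.charpoly_conj, hch, ← hfr, Module.finrank_fin_fun]
  · obtain ⟨Z, Z', h1, h2⟩ := hni
    apply h1
    have h3 : e.symm Z = e.symm Z' := hinj (by
      change e.symm (G (e (e.symm Z))) = e.symm (G (e (e.symm Z')))
      rw [e.apply_symm_apply, e.apply_symm_apply, h2])
    exact e.symm.injective h3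

end Pool.Agent.H70J
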