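import Pool.Agent.H70J.Det
import Pool.Agent.H70J.Red

/-!
# An explicit polynomial map of affine 4-space with Jacobian determinant 64 which is not injective,
and noninjective maps all of whose Jacobian matrices are unipotent
-/

set_option autoImplicit false

open Function Topology MvPolynomial

namespace Pool.Agent.H70J

/-- The polynomials. -/
noncomputable def PP : Fin 4 → MvPolynomial (Fin 4) ℝ :=
  ![fta (X 0) (X 1) (X 2) (X 3), fa (X 0) (X 1) (X 2) (X 3), ft (X 0) (X 1) (X 2) (X 3),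
    fc (X 0) (X 1) (X 2) (X 3)]

theorem eval_PP (x : Fin 4 → ℝ) (i : Fin 4) : eval x (PP i) = FF x i := by
  fin_cases i
  · change eval x (fta (X 0) (X 1) (X 2) (X 3)) = fta (x 0) (x 1) (x 2) (x 3)
    simp [fta, R0, mm, qq, BB, dd, CC, AA, WW, ww]
  · change eval x (fa (X 0) (X 1) (X 2) (X 3)) = fa (x 0) (x 1) (x 2) (x 3)
    simp [fa, S0, K2, u1, t1, TT, d1, mm, qq, BB, dd, CC, AA, WW, ww]
  · change eval x (ft (X 0) (X 1) (X 2) (X 3)) = ft (x 0) (x 1) (x 2) (x 3)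
    simp [ft, E1, t1, mm, qq, BB, dd, WW, ww]
  · change eval x (fc (X 0) (X 1) (X 2) (X 3)) = fc (x 0) (x 1) (x 2) (x 3)
    simp [fc, mm, qq, BB, dd, CC, AA, WW, ww]

theorem contDiff_eval (P : MvPolynomial (Fin 4) ℝ) :
    ContDiff ℝ 1 (fun x : Fin 4 → ℝ => eval x P) := by
  induction P using MvPolynomial.induction_on with
  | C a => simpa using contDiff_const
  | add p q hp hq => simpa using hp.add hq
  | mul_X p i hp => simpa using hp.mul (contDiff_apply ℝ ℝ i)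

/-- The homogeneous parts. -/
noncomputable def Phi (j : ℕ) (x : Fin 4 → ℝ) : Fin 4 → ℝ :=
  fun i => eval x (homogeneousComponent j (PP i))

theorem contDiff_Phi (j : ℕ) : ContDiff ℝ 1 (Phi j) :=
  contDiff_pi.2 fun _ => contDiff_eval _

theorem eval_smul_hom (j : ℕ) (Q : MvPolynomial (Fin 4) ℝ) (hQ : Q.IsHomogeneous j) (t : ℝ)
    (x : Fin 4 → ℝ) : eval (t • x) Q = t ^ j * eval x Q := by
  rw [eval_eq, eval_eq, Finset.mul_sum]
  refine Finset.sum_congr rfl fun d hd => ?_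
  have h1 : ∑ i ∈ d.support, d i = j := by
    have := hQ (mem_support_iff.1 hd)
    rw [Finsupp.weight_apply] at this
    simpa [Finsupp.sum] using this
  have h2 : ∏ i ∈ d.support, (t • x) i ^ d i = t ^ j * ∏ i ∈ d.support, x i ^ d i := by
    simp only [Pi.smul_apply, smul_eq_mul, mul_pow]
    rw [Finset.prod_mul_distrib, Finset.prod_pow_eq_pow_sum, h1]
  rw [h2]
  ring

theorem Phi_smul (j : ℕ) (t : ℝ) (x : Fin 4 → ℝ) : Phi j (t • x) = t ^ j • Phi j x := by
  funext i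
  exact eval_smul_hom j _ (homogeneousComponent_isHomogeneous j (PP i)) t x

theorem exists_m : ∃ m : ℕ, ∀ x, ∑ j ∈ Finset.range (m + 3), Phi j x = FF x := by
  refine ⟨∑ i, (PP i).totalDegree, fun x => ?_⟩
  funext i
  rw [Finset.sum_apply, ← eval_PP]
  conv_rhs => rw [← sum_homogeneousComponent (PP i)]
  rw [map_sum]
  symm
  refine Finset.sum_subset (Finset.range_subset_range.2 ?_) fun j _ hj => ?_
  · have : (PP i).totalDegree ≤ ∑ i, (PP i).totalDegree :=
      Finset.single_le_sum (f := fun i => (PP i).totalDegree) (fun i _ => Nat.zero_le _)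
        (Finset.mem_univ i)
    omega
  · rw [homogeneousComponent_eq_zero _ _ (by
      rw [Finset.mem_range] at hj; omega), map_zero]

theorem FF_collision : FF ![1, 0, 0, 0] = FF ![-1, 0, 5 / 2, -3] := by
  rw [FF_vec, FF_vec]
  have e1 : fta (1 : ℝ) 0 0 0 = fta (-1) 0 (5 / 2) (-3) := by
    simp [fta, R0, mm, qq, BB, dd, CC, AA, WW, ww]
    norm_num
  have e2 : fa (1 : ℝ) 0 0 0 = fa (-1) 0 (5 / 2) (-3) := by
    simp [fa, S0, K2, u1, t1, TT, d1, mm, qq, BB, dd, CC, AA, WW, ww]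
    norm_num
  have e3 : ft (1 : ℝ) 0 0 0 = ft (-1) 0 (5 / 2) (-3) := by
    simp [ft, E1, t1, mm, qq, BB, dd, WW, ww]
    norm_num
  have e4 : fc (1 : ℝ) 0 0 0 = fc (-1) 0 (5 / 2) (-3) := by
    simp [fc, mm, qq, BB, dd, CC, AA, WW, ww]
    norm_num
  rw [e1, e2, e3, e4]

theorem ne_pts : (![1, 0, 0, 0] : Fin 4 → ℝ) ≠ ![-1, 0, 5 / 2, -3] := by
  intro h
  have := congrFun h 0
  norm_num at this

theorem det_FF (x : Fin 4 → ℝ) :
    LinearMap.det ((fderiv ℝ FF x : (Fin 4 → ℝ) →L[ℝ] (Fin 4 → ℝ)) :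
      (Fin 4 → ℝ) →ₗ[ℝ] (Fin 4 → ℝ)) = 64 := by
  have hc : ContDiff ℝ 1 FF := by
    refine contDiff_pi.2 fun i => ?_
    have := contDiff_eval (PP i)
    simp only [eval_PP] at this
    exact this
  have h1 : Continuous fun x => (fderiv ℝ FF x).det :=
    ContinuousLinearMap.continuous_det.comp (hc.continuous_fderiv one_ne_zero)
  have h2 : Dense {x : Fin 4 → ℝ | x 0 ≠ 0} := by
    have h3 : {x : Fin 4 → ℝ | x 0 ≠ 0} = (fun x : Fin 4 → ℝ => x 0) ⁻¹' {0}ᶜ := rfl
    rw [h3]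
    exact (dense_compl_singleton (0 : ℝ)).preimage (isOpenMap_eval 0)
  have h4 : (fun x => (fderiv ℝ FF x).det) = fun _ => (64 : ℝ) :=
    h1.ext_on h2 continuous_const fun x hx => (JD_FF x hx).2
  exact congrFun h4 x

/-- There are noninjective maps of `ℝ^N` all of whose Jacobian matrices have characteristic
polynomial `(X - 1) ^ N`. -/
theorem exists_map : ∃ N : ℕ, 2 ≤ N ∧ ∃ f : (Fin N → ℝ) → (Fin N → ℝ), ContDiff ℝ 1 f ∧
      (∀ x : Fin N → ℝ, (LinearMap.toMatrix' ((fderiv ℝ f x : (Fin N → ℝ) →L[ℝ] (Fin N → ℝ)) :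
          (Fin N → ℝ) →ₗ[ℝ] (Fin N → ℝ))).charpoly = (Polynomial.X - 1) ^ N) ∧
      ¬ Function.Injective f := by
  obtain ⟨m, hm⟩ := exists_m
  have hm' : (fun x => ∑ j ∈ Finset.range (m + 3), Phi j x) = FF := funext hm
  obtain ⟨G, h1, h2, h3⟩ := exists_unipotent_of_parts Phi m contDiff_Phi Phi_smul 64
    (by norm_num) (fun x => by rw [hm']; exact det_FF x) ![1, 0, 0, 0] ![-1, 0, 5 / 2, -3] ne_pts
    (by rw [hm, hm]; exact FF_collision)
  exact ⟨(m + 1) * 4, by omega, transfer G h1 h2 h3 _ rfl⟩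

end Pool.Agent.H70J
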