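import Pool.Agent.H70J.Map
import Pool.Agent.H70J.Chain

/-!
# An explicit polynomial map of affine 4-space with Jacobian determinant 64 which is not injective:
the determinant
-/

set_option autoImplicit false

open Function

namespace Pool.Agent.H70J

/-- `f` has Jacobian determinant `d` at `x`. -/
def JD (f : (Fin 4 → ℝ) → (Fin 4 → ℝ)) (x : Fin 4 → ℝ) (d : ℝ) : Prop :=
  DifferentiableAt ℝ f x ∧
    LinearMap.det ((fderiv ℝ f x : (Fin 4 → ℝ) →L[ℝ] (Fin 4 → ℝ)) :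
      (Fin 4 → ℝ) →ₗ[ℝ] (Fin 4 → ℝ)) = d

theorem JD.comp {f g : (Fin 4 → ℝ) → (Fin 4 → ℝ)} {x : Fin 4 → ℝ} {d d' : ℝ}
    (hg : JD g (f x) d') (hf : JD f x d) : JD (fun z => g (f z)) x (d' * d) := by
  refine ⟨hg.1.comp x hf.1, ?_⟩
  have h1 : fderiv ℝ (fun z => g (f z)) x = (fderiv ℝ g (f x)).comp (fderiv ℝ f x) :=
    fderiv_comp x hg.1 hf.1
  rw [h1, ← hg.2, ← hf.2, ← LinearMap.det_comp]
  rfl

/-- Replacing one coordinate. -/
theorem JD_update (i : Fin 4) (h : (Fin 4 → ℝ) → ℝ) (x : Fin 4 → ℝ) (d : ℝ)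
    (hh : DifferentiableAt ℝ h x) (hd : HasDerivAt (fun s : ℝ => h (update x i s)) d (x i)) :
    JD (fun z => update z i (h z)) x d := by
  set h' := fderiv ℝ h x with hh'
  let sg : ℝ →L[ℝ] (Fin 4 → ℝ) := ContinuousLinearMap.single ℝ (fun _ : Fin 4 => ℝ) i
  let pr : (Fin 4 → ℝ) →L[ℝ] ℝ := ContinuousLinearMap.proj i
  have e1 : (fun z : Fin 4 → ℝ => update z i (h z)) = fun z => z + sg (h z - pr z) := by
    funext z j
    by_cases hj : j = i
    · subst hj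
      simp [sg, pr]
    · simp [sg, pr, hj]
  have e2 : HasFDerivAt (fun z => z + sg (h z - pr z))
      (ContinuousLinearMap.id ℝ (Fin 4 → ℝ) + sg.comp (h' - pr)) x :=
    (hasFDerivAt_id x).add (sg.hasFDerivAt.comp x (hh.hasFDerivAt.sub pr.hasFDerivAt))
  have e3 : h' (Pi.single i 1) = d := by
    have h1 : HasDerivAt (fun s : ℝ => update x i s) (Pi.single i (1 : ℝ)) (x i) :=
      hasDerivAt_update x i (x i)
    have h2 : HasFDerivAt h h' (update x i (x i)) := by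
      rw [update_eq_self]
      exact hh.hasFDerivAt
    have h3 : HasDerivAt (fun s : ℝ => h (update x i s)) (h' (Pi.single i 1)) (x i) :=
      HasFDerivAt.comp_hasDerivAt (l := h) (f := fun s : ℝ => update x i s) (x i) h2 h1
    exact h3.unique hd
  refine ⟨?_, ?_⟩
  · rw [e1]
    exact e2.differentiableAt
  · rw [e1, e2.fderiv]
    have e4 : ((ContinuousLinearMap.id ℝ (Fin 4 → ℝ) + sg.comp (h' - pr) :
        (Fin 4 → ℝ) →L[ℝ] (Fin 4 → ℝ)) : (Fin 4 → ℝ) →ₗ[ℝ] (Fin 4 → ℝ)) =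
        1 + (sg : ℝ →ₗ[ℝ] (Fin 4 → ℝ)) ∘ₗ ((h' - pr : (Fin 4 → ℝ) →L[ℝ] ℝ) :
          (Fin 4 → ℝ) →ₗ[ℝ] ℝ) := rfl
    rw [e4, det_one_add_comp, LinearMap.det_ring]
    simp only [LinearMap.add_apply, Module.End.one_apply, LinearMap.comp_apply,
      ContinuousLinearMap.coe_coe, _root_.sub_apply]
    have e5 : sg 1 = Pi.single i 1 := rfl
    rw [e5, e3]
    simp [pr]

end Pool.Agent.H70J
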