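import Pool.Agent.H70J.Poly

/-!
# An explicit polynomial map of affine 4-space with Jacobian determinant 64 which is not injective:
the map, in the coordinates `X, y, p, g`
-/

set_option autoImplicit false

namespace Pool.Agent.H70J

section poly
variable {R : Type*} [CommRing R]

def qq (X y p g : R) : R := (1 + 2 * (X * y)) * g + 2 * X ^ 2 * p

/-- `W1` -/
def ww (X y p g : R) : R := 12 * BB (X * y) * qq X y p g - 4 * X ^ 4 * qq X y p g ^ 2

def dd (X y p g : R) : R := 2 * g + qq X y p g * (WW (X * y) + X ^ 4 * ww X y p g)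

def d1 (X y p g : R) : R := 2 * p * WW (X * y) + X ^ 2 * ww X y p g * qq X y p g

def u1 (X y p g : R) : R := -(2 * p + mm (X * y) * d1 X y p g)

def t1 (X y p g : R) : R := -(qq X y p g + mm (X * y) * dd X y p g)

/-- the component `c` -/
def fc (X y p g : R) : R := X * (CC (X * y) + X ^ 4 * dd X y p g)

/-- the component `t` -/
def ft (X y p g : R) : R := y * E1 (X * y) + X ^ 3 * t1 X y p g

/-- the component `τ` -/
def fta (X y p g : R) : R :=
  y ^ 4 * R0 (X * y) + 12 * mm (X * y) * qq X y p g * (2 * BB (X * y) - X ^ 4 * qq X y p g) +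
    12 * mm (X * y) ^ 2 * (BB (X * y) * dd X y p g - qq X y p g * CC (X * y) -
      X ^ 4 * qq X y p g * dd X y p g) -
    4 * mm (X * y) ^ 3 * dd X y p g * (2 * CC (X * y) + X ^ 4 * dd X y p g)

/-- the component `a` -/
def fa (X y p g : R) : R :=
  y ^ 6 * S0 (X * y) + g * y ^ 2 * K2 (X * y) +
    (-12 * mm (X * y) ^ 2 * u1 X y p g * TT (X * y) -
      8 * mm (X * y) ^ 3 * (u1 X y p g * CC (X * y) + TT (X * y) * d1 X y p g) -
      6 * mm (X * y) ^ 4 * CC (X * y) * d1 X y p g) +
    X ^ 2 * (-6 * mm (X * y) ^ 2 * t1 X y p g ^ 2 -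
      8 * mm (X * y) ^ 3 * t1 X y p g * dd X y p g - 3 * mm (X * y) ^ 4 * dd X y p g ^ 2)

/-- `b = X k` -/
def bb (X y p g : R) : R := BB (X * y) - X ^ 4 * qq X y p g

/-- `C = c / X` -/
def cf (X y p g : R) : R := CC (X * y) + X ^ 4 * dd X y p g

theorem cf_eq (X y p g : R) : cf X y p g =
    AA (X * y) + 2 * X ^ 4 * g - 6 * mm (X * y) * bb X y p g + 4 * bb X y p g ^ 3 := by
  unfold cf bb dd ww CC WW
  ring

theorem X_ft (X y p g : R) : X * ft X y p g = bb X y p g - mm (X * y) * cf X y p g := by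
  have h := hE1 (X * y)
  unfold TT at h
  unfold ft t1 bb cf
  linear_combination -h

theorem X_fta (X y p g : R) : X ^ 4 * fta X y p g = 1 + 3 * mm (X * y) ^ 2 -
    12 * mm (X * y) * bb X y p g ^ 2 + 12 * mm (X * y) ^ 2 * bb X y p g * cf X y p g -
    4 * mm (X * y) ^ 3 * cf X y p g ^ 2 := by
  have h := hR0 (X * y)
  unfold fta bb cf
  generalize dd X y p g = D
  generalize qq X y p g = Q
  generalize CC (X * y) = C at *
  generalize BB (X * y) = B at *
  generalize mm (X * y) = m at *
  linear_combination -h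

theorem dd_eq (X y p g : R) : dd X y p g = g * d0 (X * y) + X ^ 2 * d1 X y p g := by
  unfold dd d0 d1 qq
  ring

theorem t1_eq (X y p g : R) : t1 X y p g = g * th0 (X * y) + X ^ 2 * u1 X y p g := by
  unfold t1 th0 u1
  rw [dd_eq]
  unfold qq
  ring

theorem X_fa (X y p g : R) : X ^ 6 * fa X y p g = mm (X * y) + 2 * mm (X * y) ^ 3 -
    6 * mm (X * y) ^ 2 * (bb X y p g - mm (X * y) * cf X y p g) ^ 2 -
    8 * mm (X * y) ^ 3 * (bb X y p g - mm (X * y) * cf X y p g) * cf X y p g -
    3 * mm (X * y) ^ 4 * cf X y p g ^ 2 := by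
  have h := hS0 (X * y)
  have hk := hK2 (X * y)
  have h0 : bb X y p g - mm (X * y) * cf X y p g = TT (X * y) + X ^ 4 * t1 X y p g := by
    unfold bb cf t1 TT
    ring
  rw [h0]
  unfold fa cf
  have e1 := dd_eq X y p g
  have e2 := t1_eq X y p g
  generalize dd X y p g = D at *
  generalize t1 X y p g = T1 at *
  generalize d1 X y p g = D1 at *
  generalize u1 X y p g = U1 at *
  generalize d0 (X * y) = δ at *
  generalize th0 (X * y) = θ at *
  generalize TT (X * y) = T at *
  generalize CC (X * y) = C at *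
  generalize mm (X * y) = m at *
  subst e1 e2
  linear_combination -h - X ^ 4 * g * hk

end poly

end Pool.Agent.H70J
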