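import Mathlib

/-!
# An explicit polynomial map of affine 4-space with Jacobian determinant 64 which is not injective:
the polynomials
-/

set_option autoImplicit false

namespace Pool.Agent.H70J

section poly
variable {R : Type*} [CommRing R]

def mm (s : R) : R := 1 + 4 * s
def BB (s : R) : R := 1 + 6 * s ^ 2 - 40 * s ^ 3 - 57 * s ^ 4
def AA (s : R) : R := 3 + 18 * s + 6 * s ^ 2 + 76 * s ^ 3
def CC (s : R) : R := AA s - 6 * mm s * BB s + 4 * BB s ^ 3
def TT (s : R) : R := BB s - mm s * CC s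
def WW (s : R) : R := 6 * mm s - 12 * BB s ^ 2
/-- the quotient of `TT s` by `s` -/
def E1 (s : R) : R :=
    2 - 12 * s + 100 * s ^ 2 + 125 * s ^ 3 + 192 * s ^ 4 + 5712 * s ^ 5 - 84864 * s ^ 6 -
    279324 * s ^ 7 - 590576 * s ^ 8 + 571192 * s ^ 9 + 5001408 * s ^ 10 + 6978852 * s ^ 11 +
    2963088 * s ^ 12
/-- the quotient by `s ^ 4` -/
def R0 (s : R) : R :=
    -(1500) - 2136 * s - 27768 * s ^ 2 - 2832 * s ^ 3 + 3462300 * s ^ 4 + 7783408 * s ^ 5 +
    24478464 * s ^ 6 + 311078400 * s ^ 7 + 1182008224 * s ^ 8 + 6740488128 * s ^ 9 + 212471616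
    * s ^ 10 - 244934108032 * s ^ 11 - 1440668185296 * s ^ 12 - 4189875156864 * s ^ 13 -
    1740514639360 * s ^ 14 + 30290669740032 * s ^ 15 + 113840772685440 * s ^ 16 +
    176464374396416 * s ^ 17 - 50988938819328 * s ^ 18 - 764560683528192 * s ^ 19 -
    1484464905479232 * s ^ 20 - 1418929209619200 * s ^ 21 - 696846045662208 * s ^ 22 -
    140478247931904 * s ^ 23
/-- the quotient by `s ^ 6` -/
def S0 (s : R) : R :=
    -(12712) + 13824 * s + 1718790 * s ^ 2 + 10138880 * s ^ 3 + 26706016 * s ^ 4 + 90493056 *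
    s ^ 5 + 385457080 * s ^ 6 + 2144248912 * s ^ 7 + 5834845488 * s ^ 8 - 59649257376 * s ^ 9
    - 597161331376 * s ^ 10 - 2475094240896 * s ^ 11 - 4615391559232 * s ^ 12 + 5834855131904
    * s ^ 13 + 58750862911392 * s ^ 14 + 157956866284544 * s ^ 15 + 163717139691584 * s ^ 16 -
    242129109701376 * s ^ 17 - 1135676909898000 * s ^ 18 - 1839197207884032 * s ^ 19 -
    1593140721034752 * s ^ 20 - 731965607645184 * s ^ 21 - 140478247931904 * s ^ 22
/-- the quotient by `s ^ 2` -/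
def K2 (s : R) : R :=
    -(48) - 352 * s + 11484 * s ^ 2 + 146328 * s ^ 3 + 667712 * s ^ 4 + 2185344 * s ^ 5 +
    9545304 * s ^ 6 + 49436480 * s ^ 7 + 237763920 * s ^ 8 - 224069184 * s ^ 9 - 13015526128 *
    s ^ 10 - 90616176768 * s ^ 11 - 319495955712 * s ^ 12 - 418346543616 * s ^ 13 +
    1614972874464 * s ^ 14 + 10041305064384 * s ^ 15 + 24297806975808 * s ^ 16 +
    20015292643200 * s ^ 17 - 56384081108832 * s ^ 18 - 219119032817856 * s ^ 19 -
    351818649317376 * s ^ 20 - 311608384874496 * s ^ 21 - 148131264208896 * s ^ 22 -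
    29574367985664 * s ^ 23

theorem hE1 (s : R) : TT s = s * E1 s := by
  unfold TT CC AA BB mm E1
  ring

theorem hR0 (s : R) : 1 + 3 * mm s ^ 2 - 12 * mm s * BB s ^ 2 + 12 * mm s ^ 2 * BB s * CC s -
    4 * mm s ^ 3 * CC s ^ 2 = s ^ 4 * R0 s := by
  unfold CC AA BB mm R0
  ring

theorem hS0 (s : R) : mm s + 2 * mm s ^ 3 - 6 * mm s ^ 2 * TT s ^ 2 - 8 * mm s ^ 3 * TT s * CC s -
    3 * mm s ^ 4 * CC s ^ 2 = s ^ 6 * S0 s := by
  unfold TT CC AA BB mm S0
  ring

/-- the coefficient functions -/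
def d0 (s : R) : R := 2 + (1 + 2 * s) * WW s
def th0 (s : R) : R := -((1 + 2 * s) + mm s * d0 s)

theorem hK2 (s : R) : -12 * mm s ^ 2 * th0 s * TT s - 8 * mm s ^ 3 * (th0 s * CC s + TT s * d0 s) -
    6 * mm s ^ 4 * CC s * d0 s = s ^ 2 * K2 s := by
  unfold th0 d0 WW TT CC AA BB mm K2
  ring

end poly

end Pool.Agent.H70J
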