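import Pool.Agent.H70J.Jac

/-!
# An explicit polynomial map of affine 4-space with Jacobian determinant 64 which is not injective:
the factorisation for `X ≠ 0`
-/

set_option autoImplicit false

open Function

namespace Pool.Agent.H70J

/-- The map. -/
def FF (z : Fin 4 → ℝ) : Fin 4 → ℝ :=
  ![fta (z 0) (z 1) (z 2) (z 3), fa (z 0) (z 1) (z 2) (z 3), ft (z 0) (z 1) (z 2) (z 3),
    fc (z 0) (z 1) (z 2) (z 3)]

noncomputable def h1 (z : Fin 4 → ℝ) : ℝ :=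
  (BB (z 0 * z 1) - z 0 ^ 4 * ((1 + 2 * (z 0 * z 1)) * z 3 + 2 * z 0 ^ 2 * z 2)) / z 0
noncomputable def h2 (z : Fin 4 → ℝ) : ℝ := 2 * z 0 * z 3 + AA (z 0 * z 1) / z 0 ^ 3
noncomputable def h3 (z : Fin 4 → ℝ) : ℝ := mm (z 0 * z 1) / z 0 ^ 2
noncomputable def h4 (z : Fin 4 → ℝ) : ℝ := (z 0 ^ 4)⁻¹
noncomputable def h5 (z : Fin 4 → ℝ) : ℝ := (z 3 - 6 * z 1 * z 2 + 4 * z 2 ^ 3) / z 0
def h6 (z : Fin 4 → ℝ) : ℝ := z 2 - z 1 * z 3
def h7 (z : Fin 4 → ℝ) : ℝ :=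
  z 0 + 3 * z 1 ^ 2 - 12 * z 1 * z 2 ^ 2 - 12 * z 1 ^ 2 * z 3 * z 2 - 4 * z 1 ^ 3 * z 3 ^ 2
def h8 (z : Fin 4 → ℝ) : ℝ :=
  z 1 * z 0 - z 1 ^ 3 + 6 * z 1 ^ 2 * z 2 ^ 2 + 4 * z 1 ^ 3 * z 3 * z 2 + z 1 ^ 4 * z 3 ^ 2

theorem lin (α β x : ℝ) : HasDerivAt (fun s : ℝ => α + s * β) β x := by
  have := ((hasDerivAt_id x).mul_const β).const_add α
  rw [one_mul] at this
  exact this

theorem JD1 (x : Fin 4 → ℝ) (hx : x 0 ≠ 0) :
    JD (fun z => update z 2 (h1 z)) x (-2 * x 0 ^ 5) := by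
  refine JD_update 2 h1 x _ ?_ ?_
  · unfold h1 BB
    fun_prop (disch := exact hx)
  · have e : (fun s : ℝ => h1 (update x 2 s)) = fun s =>
        (BB (x 0 * x 1) - x 0 ^ 4 * ((1 + 2 * (x 0 * x 1)) * x 3)) / x 0 + s * (-2 * x 0 ^ 5) := by
      funext s
      unfold h1
      simp
      field_simp
      ring
    rw [e]
    exact lin _ _ _

theorem JD2 (x : Fin 4 → ℝ) (hx : x 0 ≠ 0) :
    JD (fun z => update z 3 (h2 z)) x (2 * x 0) := by
  refine JD_update 3 h2 x _ ?_ ?_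
  · unfold h2 AA
    have : x 0 ^ 3 ≠ 0 := pow_ne_zero 3 hx
    fun_prop (disch := assumption)
  · have e : (fun s : ℝ => h2 (update x 3 s)) = fun s =>
        AA (x 0 * x 1) / x 0 ^ 3 + s * (2 * x 0) := by
      funext s
      unfold h2
      simp
      ring
    rw [e]
    exact lin _ _ _

theorem JD3 (x : Fin 4 → ℝ) (hx : x 0 ≠ 0) :
    JD (fun z => update z 1 (h3 z)) x (4 / x 0) := by
  refine JD_update 1 h3 x _ ?_ ?_
  · unfold h3 mm
    have : x 0 ^ 2 ≠ 0 := pow_ne_zero 2 hx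
    fun_prop (disch := assumption)
  · have e : (fun s : ℝ => h3 (update x 1 s)) = fun s =>
        1 / x 0 ^ 2 + s * (4 / x 0) := by
      funext s
      unfold h3 mm
      simp
      field_simp
    rw [e]
    exact lin _ _ _

theorem JD4 (x : Fin 4 → ℝ) (hx : x 0 ≠ 0) :
    JD (fun z => update z 0 (h4 z)) x (-4 / x 0 ^ 5) := by
  have h4' : x 0 ^ 4 ≠ 0 := pow_ne_zero 4 hx
  refine JD_update 0 h4 x _ ?_ ?_
  · unfold h4
    fun_prop (disch := assumption)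
  · have e : (fun s : ℝ => h4 (update x 0 s)) = fun s => (s ^ 4)⁻¹ := by
      funext s
      unfold h4
      simp
    rw [e]
    have := ((hasDerivAt_pow 4 (x 0)).inv h4')
    refine this.congr_deriv ?_
    field_simp
    norm_num
    ring

theorem JD5 (x : Fin 4 → ℝ) (hx : x 0 ≠ 0) :
    JD (fun z => update z 3 (h5 z)) x (1 / x 0) := by
  refine JD_update 3 h5 x _ ?_ ?_
  · unfold h5
    fun_prop (disch := assumption)
  · have e : (fun s : ℝ => h5 (update x 3 s)) = fun s =>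
        (- 6 * x 1 * x 2 + 4 * x 2 ^ 3) / x 0 + s * (1 / x 0) := by
      funext s
      unfold h5
      simp
      ring
    rw [e]
    exact lin _ _ _

theorem JD6 (x : Fin 4 → ℝ) : JD (fun z => update z 2 (h6 z)) x 1 := by
  refine JD_update 2 h6 x _ ?_ ?_
  · unfold h6
    fun_prop
  · have e : (fun s : ℝ => h6 (update x 2 s)) = fun s => s - x 1 * x 3 := by
      funext s
      unfold h6
      simp
    rw [e]
    exact (hasDerivAt_id (x 2)).sub_const (x 1 * x 3)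

theorem JD7 (x : Fin 4 → ℝ) : JD (fun z => update z 0 (h7 z)) x 1 := by
  refine JD_update 0 h7 x _ ?_ ?_
  · unfold h7
    fun_prop
  · have e : (fun s : ℝ => h7 (update x 0 s)) = fun s => s + (3 * x 1 ^ 2 -
        12 * x 1 * x 2 ^ 2 - 12 * x 1 ^ 2 * x 3 * x 2 - 4 * x 1 ^ 3 * x 3 ^ 2) := by
      funext s
      unfold h7
      simp
      ring
    rw [e]
    exact (hasDerivAt_id (x 0)).add_const _

theorem JD8 (x : Fin 4 → ℝ) : JD (fun z => update z 1 (h8 z)) x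
    (x 0 - 3 * x 1 ^ 2 + 12 * x 1 * x 2 ^ 2 + 12 * x 1 ^ 2 * x 3 * x 2 +
      4 * x 1 ^ 3 * x 3 ^ 2) := by
  refine JD_update 1 h8 x _ ?_ ?_
  · unfold h8
    fun_prop
  · have e : (fun s : ℝ => h8 (update x 1 s)) = fun s => s * x 0 - s ^ 3 +
        s ^ 2 * (6 * x 2 ^ 2) + s ^ 3 * (4 * x 3 * x 2) + s ^ 4 * x 3 ^ 2 := by
      funext s
      unfold h8
      simp
      ring
    rw [e]
    have := (((((hasDerivAt_id (x 1)).mul_const (x 0)).sub (hasDerivAt_pow 3 (x 1))).add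
      ((hasDerivAt_pow 2 (x 1)).mul_const (6 * x 2 ^ 2))).add
      ((hasDerivAt_pow 3 (x 1)).mul_const (4 * x 3 * x 2))).add
      ((hasDerivAt_pow 4 (x 1)).mul_const (x 3 ^ 2))
    refine this.congr_deriv ?_
    norm_num
    ring

end Pool.Agent.H70J
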