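import Pool.Agent.H70J.Chain

/-!
# From a noninjective map with Jacobian determinant one to a noninjective map with unipotent
Jacobian matrices
-/

set_option autoImplicit false

open Polynomial

namespace Pool.Agent.H70J

variable {n : ℕ} (Φ : ℕ → (Fin n → ℝ) → (Fin n → ℝ))

theorem contDiff_rho (m : ℕ) (hΦ : ∀ j, ContDiff ℝ 1 (Φ j)) : ContDiff ℝ 1 (rho Φ m) := by
  refine contDiff_pi.2 fun i => ?_
  exact ContDiff.sum fun l _ => hΦ (l + 2)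

theorem contDiff_phi (m : ℕ) (hΦ : ∀ j, ContDiff ℝ 1 (Φ j)) : ContDiff ℝ 1 (phi Φ m) :=
  contDiff_pi.2 fun i => hΦ (i.1 + 2)

theorem contDiff_HH (m : ℕ) (hΦ : ∀ j, ContDiff ℝ 1 (Φ j)) : ContDiff ℝ 1 (HH Φ m) := by
  have h1 : ContDiff ℝ 1 fun Z : Fin (m + 1) → Fin n → ℝ => Z 0 := contDiff_apply ℝ _ 0
  have h2 : ContDiff ℝ 1 fun Z : Fin (m + 1) → Fin n → ℝ => shift m n Z :=
    (LinearMap.toContinuousLinearMap (shift m n)).contDiff
  exact ((contDiff_phi Φ m hΦ).comp h1).sub h2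

theorem det_HH (m : ℕ) (hΦ : ∀ j, ContDiff ℝ 1 (Φ j))
    (hdet : ∀ x, LinearMap.det ((fderiv ℝ (fun x : Fin n → ℝ => x + rho Φ m x 0) x :
      (Fin n → ℝ) →L[ℝ] (Fin n → ℝ)) : (Fin n → ℝ) →ₗ[ℝ] (Fin n → ℝ)) = 1)
    (Z : Fin (m + 1) → Fin n → ℝ) :
    LinearMap.det (1 + (fderiv ℝ (HH Φ m) Z : (Fin (m + 1) → Fin n → ℝ) →ₗ[ℝ] _)) = 1 := by
  have hne : (1 : WithTop ℕ∞) ≠ 0 := one_ne_zero
  have hρ : DifferentiableAt ℝ (rho Φ m) (Z 0) := (contDiff_rho Φ m hΦ).differentiable hne _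
  have hH : DifferentiableAt ℝ (HH Φ m) Z := (contDiff_HH Φ m hΦ).differentiable hne _
  set R := fderiv ℝ (rho Φ m) (Z 0) with hR
  let pr : (Fin (m + 1) → Fin n → ℝ) →L[ℝ] (Fin n → ℝ) := ContinuousLinearMap.proj 0
  let S := LinearMap.toContinuousLinearMap (shift m n)
  have e1 : HasFDerivAt (fun W => W + HH Φ m W)
      (ContinuousLinearMap.id ℝ _ + fderiv ℝ (HH Φ m) Z) Z :=
    (hasFDerivAt_id Z).add hH.hasFDerivAt
  have e2 : HasFDerivAt (fun W : Fin (m + 1) → Fin n → ℝ =>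
        (ContinuousLinearMap.id ℝ (Fin (m + 1) → Fin n → ℝ) - S) (W + rho Φ m (W 0)))
      ((ContinuousLinearMap.id ℝ (Fin (m + 1) → Fin n → ℝ) - S).comp
        (ContinuousLinearMap.id ℝ (Fin (m + 1) → Fin n → ℝ) + R.comp pr)) Z := by
    have h1 : HasFDerivAt (fun W : Fin (m + 1) → Fin n → ℝ => rho Φ m (W 0)) (R.comp pr) Z :=
      HasFDerivAt.comp (g := rho Φ m) (f := fun W : Fin (m + 1) → Fin n → ℝ => W 0) Z
        hρ.hasFDerivAt pr.hasFDerivAt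
    exact (ContinuousLinearMap.id ℝ (Fin (m + 1) → Fin n → ℝ) - S).hasFDerivAt.comp Z
      ((hasFDerivAt_id Z).add h1)
  have e3 : (fun W : Fin (m + 1) → Fin n → ℝ => W + HH Φ m W) = fun W =>
      (ContinuousLinearMap.id ℝ (Fin (m + 1) → Fin n → ℝ) - S) (W + rho Φ m (W 0)) := by
    funext W
    rw [HH_eq]
    rfl
  rw [e3] at e1
  have e4 := e1.unique e2
  have e5 : (1 + (fderiv ℝ (HH Φ m) Z : (Fin (m + 1) → Fin n → ℝ) →ₗ[ℝ] _)) =
      (1 - shift m n) ∘ₗ (1 + (R : (Fin n → ℝ) →ₗ[ℝ] _) ∘ₗ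
        (pr : (Fin (m + 1) → Fin n → ℝ) →ₗ[ℝ] _)) := by
    apply LinearMap.ext
    intro v
    exact congrArg (fun T : (Fin (m + 1) → Fin n → ℝ) →L[ℝ] (Fin (m + 1) → Fin n → ℝ) => T v) e4
  rw [e5, LinearMap.det_comp, det_one_sub_shift, one_mul, det_one_add_comp, ← hdet (Z 0)]
  congr 1
  have h6 : HasFDerivAt (fun x : Fin n → ℝ => x + rho Φ m x 0)
      (ContinuousLinearMap.id ℝ _ + pr.comp R) (Z 0) := by
    refine (hasFDerivAt_id (Z 0)).add ?_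
    exact pr.hasFDerivAt.comp (Z 0) hρ.hasFDerivAt
  rw [h6.fderiv]
  rfl

/-- The unipotent map. -/
theorem exists_unipotent (m : ℕ) (hΦ : ∀ j, ContDiff ℝ 1 (Φ j))
    (hhom : ∀ (j : ℕ) (t : ℝ) (x : Fin n → ℝ), Φ j (t • x) = t ^ j • Φ j x)
    (hdet : ∀ x, LinearMap.det ((fderiv ℝ (fun x : Fin n → ℝ => x + rho Φ m x 0) x :
      (Fin n → ℝ) →L[ℝ] (Fin n → ℝ)) : (Fin n → ℝ) →ₗ[ℝ] (Fin n → ℝ)) = 1)
    (a b : Fin n → ℝ) (hab : a ≠ b) (hF : a + rho Φ m a 0 = b + rho Φ m b 0) :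
    ∃ G : (Fin (m + 1) → Fin n → ℝ) → (Fin (m + 1) → Fin n → ℝ), ContDiff ℝ 1 G ∧
      (∀ Z, LinearMap.charpoly (fderiv ℝ G Z : (Fin (m + 1) → Fin n → ℝ) →ₗ[ℝ] (Fin (m + 1) → Fin n → ℝ)) =
        (X - 1) ^ Module.finrank ℝ (Fin (m + 1) → Fin n → ℝ)) ∧
      ∃ Z Z', Z ≠ Z' ∧ G Z = G Z' := by
  have hne : (1 : WithTop ℕ∞) ≠ 0 := one_ne_zero
  have hHc := contDiff_HH Φ m hΦ
  refine ⟨fun Z => Z + HH Φ m Z, contDiff_id.add hHc, fun Z => ?_, ?_⟩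
  · have h1 : (fderiv ℝ (fun Z => Z + HH Φ m Z) Z : (Fin (m + 1) → Fin n → ℝ) →ₗ[ℝ]
        (Fin (m + 1) → Fin n → ℝ)) =
        1 + (fderiv ℝ (HH Φ m) Z : (Fin (m + 1) → Fin n → ℝ) →ₗ[ℝ]
          (Fin (m + 1) → Fin n → ℝ)) := by
      have h2 : HasFDerivAt (fun Z => Z + HH Φ m Z)
          (ContinuousLinearMap.id ℝ (Fin (m + 1) → Fin n → ℝ) + fderiv ℝ (HH Φ m) Z) Z :=
        (hasFDerivAt_id Z).add (hHc.differentiable hne Z).hasFDerivAt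
      rw [h2.fderiv]
      rfl
    rw [h1]
    exact charpoly_of_scaling (HH Φ m) (hHc.differentiable hne) (dil m n)
      (fun s hs => dil_equiv s hs) (fun s Z => HH_dil Φ hhom s Z) (det_HH Φ m hΦ hdet) Z
  · let z : (Fin n → ℝ) → Fin (m + 1) → Fin n → ℝ := fun x =>
      Function.update (-(rho Φ m x)) 0 x
    have hz0 : ∀ x, z x 0 = x := fun x => Function.update_self _ _ _
    have hz : ∀ x, z x + rho Φ m (z x 0) = Function.update (0 : Fin (m + 1) → Fin n → ℝ) 0 (x + rho Φ m x 0) := by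
      intro x
      rw [hz0]
      funext i
      by_cases hi : i = 0
      · subst hi
        rw [Pi.add_apply, hz0, Function.update_self]
      · have h3 : z x i = -(rho Φ m x i) := Function.update_of_ne hi _ _
        rw [Pi.add_apply, Function.update_of_ne hi, h3, neg_add_cancel, Pi.zero_apply]
    refine ⟨z a, z b, fun h => hab ?_, ?_⟩
    · rw [← hz0 a, ← hz0 b, h]
    · change z a + HH Φ m (z a) = z b + HH Φ m (z b)
      rw [HH_eq, HH_eq, hz, hz, hF]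

end Pool.Agent.H70J
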